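import Mathlib
import Pool.Agent.H11.Asym

theorem Pool.Agent.Results.MP_f836f4_co.Counter.result :
    ∃ (W : Type) (X : SimpleGraph W) (v₀ : W),
      X.Connected ∧ (∀ v, (X.neighborSet v).Finite) ∧
      (∀ σ : X ≃g X, σ ≠ SimpleGraph.Iso.refl → {v | σ v ≠ v}.Infinite) ∧
      ∀ red : Set W, (∀ σ : X ≃g X, (∀ v, σ v ∈ red ↔ v ∈ red) → σ = SimpleGraph.Iso.refl) →
        ∀ C : ℕ, ∃ r : ℕ, C < ({v | X.dist v₀ v = r} ∩ red).ncard :=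
  Pool.Agent.H11.Asym.main
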